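import Mathlib

/-!
# Non-monotonicity of rainbow subgraphs in the number of colours

A proper edge colouring of `G` is a proper vertex colouring of the line graph `G.lineGraph`.
For `s ≥ 1` let `H s` be the triangle with `s` pendant edges at each of its three vertices.
We show that every `H s` has a non-monotone witness.
-/

namespace Pool.Agent.Results.MP_1c393c_co.RainbowFamily

open SimpleGraph

/-- The edge colouring `c` of `G` (a proper vertex colouring of the line graph) contains a rainbow
copy of `H`: a copy of `H` in `G` (an injective homomorphism) all of whose edges receive pairwise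
distinct colours. -/
def HasRainbowCopy {V W κ : Type} {G : SimpleGraph V} (H : SimpleGraph W)
    (c : G.lineGraph.Coloring κ) : Prop :=
  ∃ f : Copy H G, Function.Injective fun e : H.edgeSet => c (f.mapEdgeSet e)

/-- `G` is a non-monotone witness for `H`: every proper edge colouring of `G` using exactly
`χ'(G)` colours contains a rainbow copy of `H`, but some proper edge colouring of `G` contains no
rainbow copy of `H`. Here `χ'(G)` is the chromatic number of the line graph. -/
def IsNonMonotoneWitness {V W : Type} (H : SimpleGraph W) (G : SimpleGraph V) : Prop :=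
  (∀ (κ : Type) (c : G.lineGraph.Coloring κ),
      (Set.range c).encard = G.lineGraph.chromaticNumber → HasRainbowCopy H c) ∧
    ∃ (κ : Type) (c : G.lineGraph.Coloring κ), ¬ HasRainbowCopy H c

section general

variable {V κ : Type} {G : SimpleGraph V}

/-- The colour of the edge `uv`. -/
def ec (c : G.lineGraph.Coloring κ) {u v : V} (h : G.Adj u v) : κ := c ⟨s(u, v), h⟩

lemma ec_symm (c : G.lineGraph.Coloring κ) {u v : V} (h : G.Adj u v) :
    ec c h = ec c h.symm := by
  unfold ec
  congr 1
  exact Subtype.ext Sym2.eq_swap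

lemma ec_ne (c : G.lineGraph.Coloring κ) {v u₁ u₂ : V} (h₁ : G.Adj v u₁) (h₂ : G.Adj v u₂)
    (hne : u₁ ≠ u₂) : ec c h₁ ≠ ec c h₂ := by
  apply c.valid
  rw [lineGraph_adj_iff_exists]
  refine ⟨?_, v, by simp, by simp⟩
  intro h
  exact hne (Sym2.congr_right.mp (congrArg Subtype.val h))

/-- Build an edge colouring from a symmetric function. -/
def mkCol (G : SimpleGraph V) (col : V → V → κ) (hs : ∀ u v, col u v = col v u)
    (h : ∀ v u₁ u₂, G.Adj v u₁ → G.Adj v u₂ → u₁ ≠ u₂ → col v u₁ ≠ col v u₂) :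
    G.lineGraph.Coloring κ :=
  Coloring.mk (fun e => Sym2.lift ⟨col, hs⟩ e.1) (by
    rintro ⟨e₁, he₁⟩ ⟨e₂, he₂⟩ hadj
    rw [lineGraph_adj_iff_exists] at hadj
    obtain ⟨hne, v, hv₁, hv₂⟩ := hadj
    obtain ⟨u₁, rfl⟩ := Sym2.mem_iff_exists.mp hv₁
    obtain ⟨u₂, rfl⟩ := Sym2.mem_iff_exists.mp hv₂
    simp only [Sym2.lift_mk]
    apply h v u₁ u₂ he₁ he₂
    rintro rfl
    exact hne rfl)

lemma ec_mkCol (col : V → V → κ) (hs : ∀ u v, col u v = col v u)
    (h : ∀ v u₁ u₂, G.Adj v u₁ → G.Adj v u₂ → u₁ ≠ u₂ → col v u₁ ≠ col v u₂)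
    {u v : V} (huv : G.Adj u v) : ec (mkCol G col hs h) huv = col u v := by
  rfl

end general

/-- Vertices of the witness graph: three triangle vertices, `3k` middle vertices and `3k-1`
further vertices. -/
abbrev GV (k : ℕ) : Type := ZMod 3 ⊕ ((ZMod 3 × ZMod k) ⊕ {j : ZMod 3 × ZMod k // j ≠ 0})

/-- Adjacency in the witness graph. -/
def gAdj (k : ℕ) : GV k → GV k → Prop
  | Sum.inl a, Sum.inl b => a ≠ b
  | Sum.inl a, Sum.inr (Sum.inl x) => x.1 = a
  | Sum.inr (Sum.inl x), Sum.inl a => x.1 = a
  | Sum.inr (Sum.inl _), Sum.inr (Sum.inr _) => True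
  | Sum.inr (Sum.inr _), Sum.inr (Sum.inl _) => True
  | _, _ => False

/-- The witness graph. -/
def gGraph (k : ℕ) : SimpleGraph (GV k) where
  Adj := gAdj k
  symm := ⟨by
    rintro (a | x | y) (b | x' | y') h <;> simp_all [gAdj]
    exact fun h' => h h'.symm⟩
  loopless := ⟨by
    rintro (a | x | y) h <;> simp_all [gAdj]⟩

/-- Vertices of the triangle with `s` pendant edges at each vertex. -/
abbrev HV (s : ℕ) : Type := ZMod 3 ⊕ (ZMod 3 × Fin s)

/-- Adjacency in the triangle with `s` pendant edges at each vertex. -/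
def hAdj (s : ℕ) : HV s → HV s → Prop
  | Sum.inl a, Sum.inl b => a ≠ b
  | Sum.inl a, Sum.inr x => x.1 = a
  | Sum.inr x, Sum.inl a => x.1 = a
  | _, _ => False

/-- The triangle with `s` pendant edges at each vertex. -/
def hGraph (s : ℕ) : SimpleGraph (HV s) where
  Adj := hAdj s
  symm := ⟨by
    rintro (a | x) (b | x') h <;> simp_all [hAdj]
    exact fun h' => h h'.symm⟩
  loopless := ⟨by
    rintro (a | x) h <;> simp_all [hAdj]⟩


lemma hGraph_connected (s : ℕ) : (hGraph s).Connected := by
  have : Nonempty (HV s) := ⟨Sum.inl 0⟩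
  have h1 : ∀ a : ZMod 3, (hGraph s).Reachable (Sum.inl a) (Sum.inl 0) := by
    intro a
    by_cases h : a = 0
    · subst h; exact Reachable.refl _
    · have hadj : (hGraph s).Adj (Sum.inl a) (Sum.inl 0) := h
      exact hadj.reachable
  have key : ∀ v : HV s, (hGraph s).Reachable v (Sum.inl 0) := by
    rintro (a | x)
    · exact h1 a
    · have hadj : (hGraph s).Adj (Sum.inr x) (Sum.inl x.1) := rfl
      exact hadj.reachable.trans (h1 x.1)
  exact ⟨fun u v => (key u).trans (key v).symm⟩

/-- The colours of a proper colouring of the witness graph with `3k` colours. -/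
def col0 (k : ℕ) : GV k → GV k → ZMod 3 × ZMod k
  | Sum.inl a, Sum.inl b => (-(a + b), 0)
  | Sum.inl _, Sum.inr (Sum.inl x) => x
  | Sum.inr (Sum.inl x), Sum.inl _ => x
  | Sum.inr (Sum.inl x), Sum.inr (Sum.inr y) => x + y.1
  | Sum.inr (Sum.inr y), Sum.inr (Sum.inl x) => x + y.1
  | _, _ => 0

lemma col0_symm (k : ℕ) (u v : GV k) : col0 k u v = col0 k v u := by
  rcases u with (a | x | y) <;> rcases v with (b | x' | y') <;> simp [col0, add_comm]

lemma zmod3_aux : ∀ a b : ZMod 3, a ≠ b → -(a + b) ≠ a := by decide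

lemma col0_proper (k : ℕ) : ∀ v u₁ u₂, (gGraph k).Adj v u₁ → (gGraph k).Adj v u₂ → u₁ ≠ u₂ →
    col0 k v u₁ ≠ col0 k v u₂ := by
  rintro (a | x | y) (b | x' | y') (b₂ | x₂ | y₂) h₁ h₂ hne
  all_goals try exact h₁.elim
  all_goals try exact h₂.elim
  · -- `a b`, `a b₂`
    intro h
    have h' : -(a + b) = -(a + b₂) := congrArg Prod.fst h
    exact hne (congrArg Sum.inl (add_left_cancel (neg_injective h')))
  · -- `a b`, `a x₂`
    intro h
    have h' : -(a + b) = x₂.1 := congrArg Prod.fst h
    have h₂' : x₂.1 = a := h₂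
    exact zmod3_aux a b h₁ (h'.trans h₂')
  · intro h
    have h' : x'.1 = -(a + b₂) := congrArg Prod.fst h
    have h₁' : x'.1 = a := h₁
    exact zmod3_aux a b₂ h₂ (h'.symm.trans h₁')
  · intro h
    exact hne (congrArg (Sum.inr ∘ Sum.inl) h)
  · exact absurd (congrArg Sum.inl ((show x.1 = b from h₁).symm.trans (show x.1 = b₂ from h₂))) hne
  · intro h
    have h' : x = x + y₂.1 := h
    exact y₂.2 (by simpa using h')
  · intro h
    have h' : x + y'.1 = x := h
    exact y'.2 (by simpa using h')
  · intro h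
    have h' : x + y'.1 = x + y₂.1 := h
    exact hne (congrArg (Sum.inr ∘ Sum.inr) (Subtype.ext (add_left_cancel h')))
  · intro h
    have h' : x' + y.1 = x₂ + y.1 := h
    exact hne (congrArg (Sum.inr ∘ Sum.inl) (add_right_cancel h'))

/-- The colours of a proper colouring of the witness graph without a rainbow copy. -/
def col1 (k : ℕ) : GV k → GV k → ZMod k ⊕ Sym2 (GV k)
  | Sum.inl _, Sum.inr (Sum.inl x) => Sum.inl x.2
  | Sum.inr (Sum.inl x), Sum.inl _ => Sum.inl x.2
  | u, v => Sum.inr s(u, v)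

lemma col1_symm (k : ℕ) (u v : GV k) : col1 k u v = col1 k v u := by
  rcases u with (a | x | y) <;> rcases v with (b | x' | y') <;> simp [col1, Sym2.eq_swap]

lemma col1_proper (k : ℕ) : ∀ v u₁ u₂, (gGraph k).Adj v u₁ → (gGraph k).Adj v u₂ → u₁ ≠ u₂ →
    col1 k v u₁ ≠ col1 k v u₂ := by
  rintro (a | x | y) (b | x' | y') (b₂ | x₂ | y₂) h₁ h₂ hne
  all_goals try exact h₁.elim
  all_goals try exact h₂.elim
  all_goals intro h
  · exact hne (Sym2.congr_right.mp (Sum.inr_injective h))
  · exact Sum.inr_ne_inl h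
  · exact Sum.inl_ne_inr h
  · have h' : x'.2 = x₂.2 := Sum.inl_injective h
    have h₁' : x'.1 = a := h₁
    have h₂' : x₂.1 = a := h₂
    exact hne (congrArg (Sum.inr ∘ Sum.inl) (Prod.ext (h₁'.trans h₂'.symm) h'))
  · exact hne (congrArg Sum.inl ((show x.1 = b from h₁).symm.trans (show x.1 = b₂ from h₂)))
  · exact Sum.inl_ne_inr h
  · exact Sum.inr_ne_inl h
  · exact hne (Sym2.congr_right.mp (Sum.inr_injective h))
  · exact hne (Sym2.congr_right.mp (Sum.inr_injective h))


/-- A proper edge colouring of the witness graph with at most `3k` colours. -/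
def coloring0 (k : ℕ) : (gGraph k).lineGraph.Coloring (ZMod 3 × ZMod k) :=
  mkCol (gGraph k) (col0 k) (col0_symm k) (col0_proper k)

/-- A proper edge colouring of the witness graph without a rainbow copy of `hGraph s`. -/
def coloring1 (k : ℕ) : (gGraph k).lineGraph.Coloring (ZMod k ⊕ Sym2 (GV k)) :=
  mkCol (gGraph k) (col1 k) (col1_symm k) (col1_proper k)

lemma chromatic_le (k : ℕ) [NeZero k] :
    (gGraph k).lineGraph.chromaticNumber ≤ Fintype.card (ZMod 3 × ZMod k) :=
  (coloring0 k).colorable.chromaticNumber_le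

lemma adj_xt (k : ℕ) (x : ZMod 3 × ZMod k) :
    (gGraph k).Adj (Sum.inr (Sum.inl x)) (Sum.inl x.1) := rfl

lemma adj_yx (k : ℕ) (y : {j : ZMod 3 × ZMod k // j ≠ 0}) (x : ZMod 3 × ZMod k) :
    (gGraph k).Adj (Sum.inr (Sum.inr y)) (Sum.inr (Sum.inl x)) := trivial

lemma adj_tt (k : ℕ) {a b : ZMod 3} (h : a ≠ b) :
    (gGraph k).Adj (Sum.inl a) (Sum.inl b) := h

section rainbow

variable {κ : Type} {k : ℕ} [NeZero k]

lemma g_injective (c : (gGraph k).lineGraph.Coloring κ)
    (hc : (Set.range c).encard = (gGraph k).lineGraph.chromaticNumber) :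
    Function.Injective fun x : ZMod 3 × ZMod k => ec c (adj_xt k x) := by
  classical
  intro x x' hxx
  by_contra hne
  simp only at hxx
  have hle : (Set.range c).encard ≤ Fintype.card (ZMod 3 × ZMod k) := hc ▸ chromatic_le k
  have hfin : (Set.range c).Finite :=
    Set.finite_of_encard_le_coe hle
  have key : ∀ y : {j : ZMod 3 × ZMod k // j ≠ 0}, ∃ z : ZMod 3 × ZMod k,
      ec c (adj_yx k y z) = ec c (adj_xt k x) := by
    intro y
    have hinj : Function.Injective fun z : ZMod 3 × ZMod k => ec c (adj_yx k y z) := by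
      intro z z' hz
      by_contra hzz
      exact ec_ne c (adj_yx k y z) (adj_yx k y z') (fun h => hzz (by simpa using h)) hz
    have hsub : Set.range (fun z : ZMod 3 × ZMod k => ec c (adj_yx k y z)) ⊆ Set.range c := by
      rintro _ ⟨z, rfl⟩
      exact ⟨_, rfl⟩
    have hcard : (Set.range (fun z : ZMod 3 × ZMod k => ec c (adj_yx k y z))).encard =
        Fintype.card (ZMod 3 × ZMod k) := by
      rw [← Set.image_univ, hinj.encard_image, Set.encard_univ, ENat.card_eq_coe_fintype_card]
    have heq : Set.range (fun z : ZMod 3 × ZMod k => ec c (adj_yx k y z)) = Set.range c :=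
      (hfin.subset hsub).eq_of_subset_of_encard_le hsub (hcard ▸ hle)
    have : ec c (adj_xt k x) ∈ Set.range c := ⟨_, rfl⟩
    rw [← heq] at this
    exact this
  choose F hF using key
  have hFinj : Function.Injective F := by
    intro y y' hyy
    by_contra hy
    have h1 := hF y
    have h2 := hF y'
    rw [← hyy] at h2
    rw [ec_symm] at h1 h2
    exact ec_ne c (adj_yx k y (F y)).symm (adj_yx k y' (F y)).symm
      (fun h => hy (by simpa using h)) (h1.trans h2.symm)
  have hFx : ∀ y, F y ≠ x := by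
    intro y hy
    have h1 := hF y
    rw [ec_symm] at h1
    subst hy
    exact ec_ne c (adj_yx k y (F y)).symm (adj_xt k (F y)) (by simp) h1
  have hFx' : ∀ y, F y ≠ x' := by
    intro y hy
    have h1 := hF y
    rw [ec_symm, hxx] at h1
    subst hy
    exact ec_ne c (adj_yx k y (F y)).symm (adj_xt k (F y)) (by simp) h1
  have hsub : Finset.univ.image F ⊆ (Finset.univ.erase x).erase x' := by
    intro z hz
    obtain ⟨y, -, rfl⟩ := Finset.mem_image.mp hz
    simp [hFx, hFx']
  have h1 := Finset.card_le_card hsub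
  rw [Finset.card_image_of_injective _ hFinj, Finset.card_erase_of_mem (by simp [Ne.symm hne]),
    Finset.card_erase_of_mem (by simp), Finset.card_univ, Finset.card_univ] at h1
  have h2 : Fintype.card {j : ZMod 3 × ZMod k // j ≠ 0} = Fintype.card (ZMod 3 × ZMod k) - 1 := by
    simp [Fintype.card_subtype_compl]
  have h3 : 1 < Fintype.card (ZMod 3 × ZMod k) :=
    Fintype.one_lt_card_iff.mpr ⟨x, x', hne⟩
  omega


lemma zmod3_succ_ne : ∀ a : ZMod 3, a + 1 ≠ a + 2 := by decide

lemma zmod3_e1 : ∀ a : ZMod 3, a + 2 ≠ a + 1 + 2 := by decide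

lemma zmod3_e2 : ∀ a : ZMod 3, a + 1 ≠ a + 2 + 1 := by decide

lemma zmod3_e3 : ∀ a : ZMod 3, a + 2 + 2 = a + 1 := by decide

lemma zmod3_e4 : ∀ a : ZMod 3, a + 1 ≠ a + 1 + 2 := by decide

lemma zmod3_e5 : ∀ a : ZMod 3, a + 2 ≠ a + 2 + 1 := by decide

/-- The colour of the triangle edge opposite to the vertex `a`. -/
def opp (c : (gGraph k).lineGraph.Coloring κ) (a : ZMod 3) : κ :=
  ec c (adj_tt k (zmod3_succ_ne a))

omit [NeZero k] in
lemma opp_injective (c : (gGraph k).lineGraph.Coloring κ) : Function.Injective (opp c) := by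
  intro a b hab
  by_contra hne
  have hcase : b = a + 1 ∨ b = a + 2 := by
    revert hne; clear hab; revert a b; decide
  rcases hcase with rfl | rfl
  · -- edges {a+1, a+2}, {a+2, a+3}
    unfold opp at hab
    rw [ec_symm] at hab
    have h1 : (gGraph k).Adj (Sum.inl (a + 2)) (Sum.inl (a + 1 + 2)) := by
      apply adj_tt; exact zmod3_e1 a
    have h2 : ec c (adj_tt k (zmod3_succ_ne (a + 1))) = ec c h1 := by
      unfold ec
      congr 3
      ring_nf
    rw [h2] at hab
    refine ec_ne c _ _ ?_ hab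
    intro h
    have := Sum.inl_injective h
    clear hab h2 h1 h hne
    revert a; decide
  · unfold opp at hab
    have h1 : (gGraph k).Adj (Sum.inl (a + 1)) (Sum.inl (a + 2 + 1)) := by
      apply adj_tt; exact zmod3_e2 a
    have h2 : ec c (adj_tt k (zmod3_succ_ne (a + 2))) = ec c h1 := by
      rw [ec_symm]
      unfold ec
      congr 3
      rw [zmod3_e3]
    rw [h2] at hab
    refine ec_ne c _ _ ?_ hab
    intro h
    have := Sum.inl_injective h
    clear hab h2 h1 h hne
    revert a; decide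

omit [NeZero k] in
lemma opp_ne_of_ne (c : (gGraph k).lineGraph.Coloring κ) (a : ZMod 3) (x : ZMod 3 × ZMod k)
    (h : a ≠ x.1) : opp c a ≠ ec c (adj_xt k x) := by
  have hcase : x.1 = a + 1 ∨ x.1 = a + 2 := by
    generalize x.1 = b at h
    revert h; revert a b; decide
  unfold opp
  rw [ec_symm c (adj_xt k x)]
  rcases hcase with h' | h'
  · have h1 : (gGraph k).Adj (Sum.inl x.1) (Sum.inl (a + 2)) := by
      rw [h']; exact adj_tt k (zmod3_succ_ne a)
    have h2 : ec c (adj_tt k (zmod3_succ_ne a)) = ec c h1 := by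
      unfold ec
      congr 4
      exact h'.symm
    rw [h2]
    exact ec_ne c _ _ (by simp)
  · have h1 : (gGraph k).Adj (Sum.inl x.1) (Sum.inl (a + 1)) := by
      rw [h']; exact adj_tt k (zmod3_succ_ne a).symm
    have h2 : ec c (adj_tt k (zmod3_succ_ne a)) = ec c h1 := by
      rw [ec_symm]
      unfold ec
      congr 4
      exact h'.symm
    rw [h2]
    exact ec_ne c _ _ (by simp)

lemma hadj_tt (s : ℕ) (a : ZMod 3) :
    (hGraph s).Adj (Sum.inl (a + 1)) (Sum.inl (a + 2)) := zmod3_succ_ne a

lemma hadj_xt (s : ℕ) (x : ZMod 3 × Fin s) :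
    (hGraph s).Adj (Sum.inr x) (Sum.inl x.1) := rfl

/-- The edges of the triangle with pendant edges. -/
def hEdge (s : ℕ) : ZMod 3 ⊕ (ZMod 3 × Fin s) → (hGraph s).edgeSet
  | Sum.inl a => ⟨s(Sum.inl (a + 1), Sum.inl (a + 2)), hadj_tt s a⟩
  | Sum.inr x => ⟨s(Sum.inr x, Sum.inl x.1), hadj_xt s x⟩

lemma zmod3_opp : ∀ a b : ZMod 3, a ≠ b → (a = -(a + b) + 1 ∧ b = -(a + b) + 2) ∨
    (b = -(a + b) + 1 ∧ a = -(a + b) + 2) := by decide

lemma hEdge_surjective (s : ℕ) : Function.Surjective (hEdge s) := by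
  rintro ⟨e, he⟩
  induction e using Sym2.ind with
  | _ u v =>
    rcases u with (a | x) <;> rcases v with (b | y)
    · rcases zmod3_opp a b he with ⟨h1, h2⟩ | ⟨h1, h2⟩
      · refine ⟨Sum.inl (-(a + b)), Subtype.ext ?_⟩
        simp only [hEdge]
        rw [← h1, ← h2]
      · refine ⟨Sum.inl (-(a + b)), Subtype.ext ?_⟩
        simp only [hEdge]
        rw [← h1, ← h2, Sym2.eq_swap]
    · have hy : y.1 = a := he
      refine ⟨Sum.inr y, Subtype.ext ?_⟩
      simp only [hEdge]
      rw [hy, Sym2.eq_swap]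
    · have hx : x.1 = b := he
      refine ⟨Sum.inr x, Subtype.ext ?_⟩
      simp only [hEdge]
      rw [hx]
    · exact (show False from he).elim

lemma rainbow_of_min {s : ℕ} (c : (gGraph (s + 1)).lineGraph.Coloring κ)
    (hc : (Set.range c).encard = (gGraph (s + 1)).lineGraph.chromaticNumber) :
    HasRainbowCopy (hGraph s) c := by
  classical
  have hg := g_injective c hc
  have hcard : ∀ a : ZMod 3,
      s ≤ Fintype.card {j : ZMod (s + 1) // ec c (adj_xt (s + 1) (a, j)) ≠ opp c a} := by
    intro a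
    have h1 : Fintype.card {j : ZMod (s + 1) // ec c (adj_xt (s + 1) (a, j)) = opp c a} ≤ 1 := by
      rw [Fintype.card_le_one_iff]
      rintro ⟨j, hj⟩ ⟨j', hj'⟩
      have := hg (hj.trans hj'.symm)
      simpa using this
    have h2 := Fintype.card_subtype_compl
      (fun j : ZMod (s + 1) => ec c (adj_xt (s + 1) (a, j)) = opp c a)
    rw [ZMod.card] at h2
    change s ≤ Fintype.card {j : ZMod (s + 1) // ¬ ec c (adj_xt (s + 1) (a, j)) = opp c a}
    omega
  have hemb : ∀ a : ZMod 3, ∃ e : Fin s → ZMod (s + 1), Function.Injective e ∧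
      ∀ t, ec c (adj_xt (s + 1) (a, e t)) ≠ opp c a := by
    intro a
    have h := hcard a
    obtain ⟨e⟩ := Function.Embedding.nonempty_of_card_le
      (α := Fin s) (β := {j : ZMod (s + 1) // ec c (adj_xt (s + 1) (a, j)) ≠ opp c a})
      (by simpa using h)
    exact ⟨fun t => (e t).1, fun t t' h => e.injective (Subtype.ext h), fun t => (e t).2⟩
  choose e he hopp using hemb
  let f : HV s → GV (s + 1)
    | Sum.inl a => Sum.inl a
    | Sum.inr x => Sum.inr (Sum.inl (x.1, e x.1 x.2))
  have hfadj : ∀ {u v}, (hGraph s).Adj u v → (gGraph (s + 1)).Adj (f u) (f v) := by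
    rintro (a | x) (b | y) h
    · exact h
    · exact h
    · exact h
    · exact (show False from h).elim
  have hfinj : Function.Injective f := by
    rintro (a | ⟨a, t⟩) (b | ⟨b, t'⟩) h
    · simpa [f] using h
    · simp [f] at h
    · simp [f] at h
    · simp only [f, Sum.inr.injEq, Sum.inl.injEq, Prod.mk.injEq] at h
      obtain ⟨rfl, h⟩ := h
      rw [he a h]
  refine ⟨⟨⟨f, hfadj⟩, hfinj⟩, ?_⟩
  -- the colour function on the edges
  let Φ : ZMod 3 ⊕ (ZMod 3 × Fin s) → κ
    | Sum.inl a => opp c a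
    | Sum.inr x => ec c (adj_xt (s + 1) (x.1, e x.1 x.2))
  have hΦ : Function.Injective Φ := by
    rintro (a | ⟨a, t⟩) (b | ⟨b, t'⟩) h
    · rw [opp_injective c h]
    · exfalso
      by_cases hab : a = b
      · subst hab; exact hopp a t' h.symm
      · exact opp_ne_of_ne c a (b, e b t') hab h
    · exfalso
      by_cases hab : b = a
      · subst hab; exact hopp b t h
      · exact opp_ne_of_ne c b (a, e a t) hab h.symm
    · have := hg h
      simp only [Prod.mk.injEq] at this
      obtain ⟨rfl, h⟩ := this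
      rw [he a h]
  intro e₁ e₂ h
  obtain ⟨z₁, rfl⟩ := hEdge_surjective s e₁
  obtain ⟨z₂, rfl⟩ := hEdge_surjective s e₂
  have hval : ∀ z, c (Copy.mapEdgeSet (⟨⟨f, hfadj⟩, hfinj⟩ : Copy (hGraph s) (gGraph (s + 1)))
      (hEdge s z)) = Φ z := by
    rintro (a | x)
    · rfl
    · rfl
  simp only [hval] at h
  rw [hΦ h]

end rainbow

lemma triangle_inl (k : ℕ) {u v w : GV k} (h1 : (gGraph k).Adj u v) (h2 : (gGraph k).Adj v w)
    (h3 : (gGraph k).Adj u w) : ∃ a, u = Sum.inl a := by
  rcases u with (a | x | y)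
  · exact ⟨a, rfl⟩
  · exfalso
    rcases v with (b | x' | y') <;> rcases w with (b' | x'' | y'')
    all_goals try exact (show False from h1)
    all_goals try exact (show False from h2)
    all_goals try exact (show False from h3)
    exact (show b ≠ b' from h2) ((show x.1 = b from h1).symm.trans (show x.1 = b' from h3))
  · exfalso
    rcases v with (b | x' | y') <;> rcases w with (b' | x'' | y'')
    all_goals try exact (show False from h1)
    all_goals try exact (show False from h2)
    all_goals try exact (show False from h3)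

lemma zmod3_e6 : ∀ a : ZMod 3, a ≠ a + 1 := by decide

lemma zmod3_e7 : ∀ a : ZMod 3, a ≠ a + 2 := by decide

lemma not_rainbow {s : ℕ} (hs : 1 ≤ s) :
    ¬ HasRainbowCopy (hGraph s) (coloring1 (s + 1)) := by
  rintro ⟨f, hf⟩
  have hadj : ∀ {u v}, (hGraph s).Adj u v → (gGraph (s + 1)).Adj (f u) (f v) :=
    fun h => f.toHom.map_adj h
  have htri : ∀ a : ZMod 3, ∃ b : ZMod 3, f (Sum.inl a) = Sum.inl b := by
    intro a
    have e1 : (hGraph s).Adj (Sum.inl a) (Sum.inl (a + 1)) := zmod3_e6 a
    have e2 : (hGraph s).Adj (Sum.inl (a + 1)) (Sum.inl (a + 2)) := zmod3_succ_ne a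
    have e3 : (hGraph s).Adj (Sum.inl a) (Sum.inl (a + 2)) := zmod3_e7 a
    exact triangle_inl (s + 1) (hadj e1) (hadj e2) (hadj e3)
  choose π hπ using htri
  have hπinj : Function.Injective π := by
    intro a b hab
    have : f (Sum.inl a) = f (Sum.inl b) := by rw [hπ, hπ, hab]
    exact Sum.inl_injective (f.injective this)
  have hπsurj : Function.Surjective π := Finite.surjective_of_injective hπinj
  have hpend : ∀ x : ZMod 3 × Fin s, ∃ z : ZMod 3 × ZMod (s + 1),
      f (Sum.inr x) = Sum.inr (Sum.inl z) := by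
    intro x
    have h := hadj (hadj_xt s x)
    rw [hπ] at h
    cases hfx : f (Sum.inr x) with
    | inl b =>
      exfalso
      obtain ⟨b', rfl⟩ := hπsurj b
      rw [← hπ b'] at hfx
      have := f.injective hfx
      simp at this
    | inr w =>
      rcases w with (z | y)
      · exact ⟨z, rfl⟩
      · exfalso
        rw [hfx] at h
        exact (show False from h)
  choose ψ hψ using hpend
  have hcol : ∀ x : ZMod 3 × Fin s, coloring1 (s + 1) (f.mapEdgeSet (hEdge s (Sum.inr x))) =
      Sum.inl (ψ x).2 := by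
    intro x
    have h1 : coloring1 (s + 1) (f.mapEdgeSet (hEdge s (Sum.inr x))) =
        col1 (s + 1) (f (Sum.inr x)) (f (Sum.inl x.1)) := rfl
    rw [h1, hψ, hπ]
    rfl
  have hinj : Function.Injective fun x : ZMod 3 × Fin s => (ψ x).2 := by
    intro x x' h
    have h' : (ψ x).2 = (ψ x').2 := h
    have h2 : hEdge s (Sum.inr x) = hEdge s (Sum.inr x') := by
      apply hf
      change coloring1 (s + 1) (f.mapEdgeSet (hEdge s (Sum.inr x))) =
        coloring1 (s + 1) (f.mapEdgeSet (hEdge s (Sum.inr x')))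
      rw [hcol, hcol, h']
    have h3 := congrArg Subtype.val h2
    simp only [hEdge, Sym2.eq_iff] at h3
    rcases h3 with ⟨h3, -⟩ | ⟨h3, -⟩
    · exact Sum.inr_injective h3
    · exact (Sum.inr_ne_inl h3).elim
  have hcard := Fintype.card_le_of_injective _ hinj
  simp only [Fintype.card_prod, ZMod.card, Fintype.card_fin] at hcard
  omega

lemma witness {s : ℕ} (hs : 1 ≤ s) : IsNonMonotoneWitness (hGraph s) (gGraph (s + 1)) :=
  ⟨fun _ c hc => rainbow_of_min c hc, _, _, not_rainbow hs⟩

/-- There is an infinite family of pairwise non-isomorphic connected finite graphs each of which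
admits a (finite) non-monotone witness. -/
theorem result :
    ∃ (W : ℕ → Type) (H : ∀ i, SimpleGraph (W i)),
      (∀ i, Finite (W i)) ∧ (∀ i, (H i).Connected) ∧
      (∀ i j, i ≠ j → IsEmpty (H i ≃g H j)) ∧
      ∀ i, ∃ (V : Type) (G : SimpleGraph V), Finite V ∧ IsNonMonotoneWitness (H i) G := by
  refine ⟨fun i => HV (i + 1), fun i => hGraph (i + 1), fun i => inferInstance,
    fun i => hGraph_connected (i + 1), ?_, fun i => ⟨GV (i + 1 + 1), gGraph (i + 1 + 1), ?_,
      witness (by omega)⟩⟩
  · intro i j hij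
    refine ⟨fun e => hij ?_⟩
    have h := Fintype.card_congr e.toEquiv
    simp only [Fintype.card_sum, Fintype.card_prod, ZMod.card, Fintype.card_fin] at h
    omega
  · infer_instance

end Pool.Agent.Results.MP_1c393c_co.RainbowFamily
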